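import Pool.Agent.W886.CS.Stm0

/-!
# The combinatorial core
-/

set_option autoImplicit false

namespace Pool.Agent.W886.CS.Core

open Finset

/-- the rank of the sequence of the numbers of accepted tasks in the groups `0, ..., n` -/
def rk {T : Type} [DecidableEq T] (G : ℕ → Finset T) (S : Finset T) : ℕ → ℕ
  | 0 => (S ∩ G 0).card
  | n + 1 => rk G S n * 4 ^ (n + 2) + (S ∩ G (n + 1)).card

section

variable {Y T : Type} [DecidableEq T] {G : ℕ → Finset T}

theorem card_inter_lt (hcard : ∀ i, (G i).card < 4 ^ (i + 1)) (S : Finset T) (i : ℕ) :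
    (S ∩ G i).card < 4 ^ (i + 1) :=
  lt_of_le_of_lt (card_le_card inter_subset_right) (hcard i)

theorem rk_lt (hcard : ∀ i, (G i).card < 4 ^ (i + 1)) (S : Finset T) (n : ℕ) :
    rk G S n < 2 ^ ((n + 1) * (n + 2)) := by
  induction n with
  | zero =>
    have := card_inter_lt hcard S 0
    simpa [rk] using this
  | succ n ih =>
    have h1 := card_inter_lt hcard S (n + 1)
    have h2 : (2 : ℕ) ^ ((n + 1 + 1) * (n + 1 + 2)) = 2 ^ ((n + 1) * (n + 2)) * 4 ^ (n + 2) := by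
      rw [show (4 : ℕ) = 2 ^ 2 by norm_num, ← pow_mul, ← pow_add]
      congr 1
      ring
    rw [h2]
    calc rk G S (n + 1) = rk G S n * 4 ^ (n + 2) + (S ∩ G (n + 1)).card := rfl
      _ < rk G S n * 4 ^ (n + 2) + 4 ^ (n + 2) := by
          have : 4 ^ (n + 1 + 1) = 4 ^ (n + 2) := rfl
          omega
      _ = (rk G S n + 1) * 4 ^ (n + 2) := by ring
      _ ≤ 2 ^ ((n + 1) * (n + 2)) * 4 ^ (n + 2) := Nat.mul_le_mul_right _ ih

theorem rk_congr {S S' : Finset T} {n : ℕ} (h : ∀ i ≤ n, S ∩ G i = S' ∩ G i) :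
    rk G S n = rk G S' n := by
  induction n with
  | zero => simp only [rk, h 0 le_rfl]
  | succ n ih =>
    simp only [rk, h (n + 1) le_rfl, ih fun i hi => h i (Nat.le_succ_of_le hi)]

theorem rk_step (hcard : ∀ i, (G i).card < 4 ^ (i + 1)) {S S' : Finset T} {j : ℕ}
    (h : ∀ i < j, S ∩ G i = S' ∩ G i) (hj : (S ∩ G j).card < (S' ∩ G j).card) {n : ℕ}
    (hn : j ≤ n) : rk G S n + 1 ≤ rk G S' n := by
  induction n, hn using Nat.le_induction with
  | base =>
    cases j with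
    | zero => simpa [rk] using hj
    | succ j =>
      have h1 : rk G S j = rk G S' j := rk_congr fun i hi => h i (Nat.lt_succ_of_le hi)
      simp only [rk, h1]
      omega
  | succ n hn ih =>
    have h1 := card_inter_lt hcard S (n + 1)
    calc rk G S (n + 1) + 1 = rk G S n * 4 ^ (n + 2) + (S ∩ G (n + 1)).card + 1 := rfl
      _ ≤ rk G S n * 4 ^ (n + 2) + 4 ^ (n + 2) := by
          have : 4 ^ (n + 1 + 1) = 4 ^ (n + 2) := rfl
          omega
      _ = (rk G S n + 1) * 4 ^ (n + 2) := by ring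
      _ ≤ rk G S' n * 4 ^ (n + 2) := Nat.mul_le_mul_right _ ih
      _ ≤ rk G S' (n + 1) := Nat.le_add_right _ _

theorem exists_cand {Y : Type} (c : ℕ → Y) (N base b : ℕ) (F : Finset Y)
    (hinj : ∀ u u', u < N → u' < N → c (base + 2 * u + b) = c (base + 2 * u' + b) → u = u')
    (hF : F.card < N) : ∃ u < N, c (base + 2 * u + b) ∉ F := by
  classical
  by_contra hcon
  push Not at hcon
  have h1 : ((range N).image fun u => c (base + 2 * u + b)) ⊆ F := by
    intro y hy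
    obtain ⟨u, hu, rfl⟩ := mem_image.1 hy
    exact hcon u (mem_range.1 hu)
  have h2 := card_le_card h1
  rw [card_image_of_injOn, card_range] at h2
  · omega
  · intro u hu u' hu' h
    exact hinj u u' (mem_range.1 (mem_coe.1 hu)) (mem_range.1 (mem_coe.1 hu')) h

omit [DecidableEq T] in
theorem sum_groups_lt (hcard : ∀ i, (G i).card < 4 ^ (i + 1)) (n : ℕ) :
    ∑ i ∈ range n, (G i).card * 2 ^ i < 8 ^ n := by
  induction n with
  | zero => simp
  | succ n ih =>
    rw [sum_range_succ]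
    have h1 : (G n).card * 2 ^ n ≤ 4 * 8 ^ n := by
      calc (G n).card * 2 ^ n ≤ 4 ^ (n + 1) * 2 ^ n := Nat.mul_le_mul_right _ (hcard n).le
        _ = 4 * 8 ^ n := by
          rw [show (8 : ℕ) = 4 * 2 by norm_num, mul_pow]
          ring
    have h2 : 8 ^ (n + 1) = 8 * 8 ^ n := by ring
    omega

end

/-- a configuration -/
structure Cfg {Y T : Type} [DecidableEq T] (c : T → ℕ → Y) (idx : T → ℕ) (G : ℕ → Finset T)
    (Q : T → (Y → Bool) → Prop) (B : Y → Bool) (k : ℕ) (A : Y → Bool) (S : Finset T) : Prop where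
  off : ∀ y, (∀ t v, y ≠ c t v) → A y = B y
  pos : ∀ t, idx t ≤ k → ∃ v, v < 2 ^ (3 * idx t + 4) * (rk G S (idx t) + 1) ∧
    A (c t v) = true ∧ (∀ v', v < v' → v' < 2 ^ mlen (idx t) → A (c t v') = false) ∧
    (v % 2 = 1 ↔ t ∈ S)
  acc : ∀ t ∈ S, Q t A

theorem gap_le {T : Type} [DecidableEq T] {G : ℕ → Finset T}
    (hcard : ∀ i, (G i).card < 4 ^ (i + 1)) (S : Finset T) (n : ℕ) :
    2 ^ (3 * n + 4) * (rk G S n + 1) ≤ 2 ^ mlen n := by
  have h1 := rk_lt hcard S n
  calc 2 ^ (3 * n + 4) * (rk G S n + 1) ≤ 2 ^ (3 * n + 4) * 2 ^ ((n + 1) * (n + 2)) :=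
        Nat.mul_le_mul_left _ h1
    _ = 2 ^ mlen n := by
      rw [← pow_add, mlen]
      congr 1
      ring

theorem cfg_zero {Y T : Type} [DecidableEq T] (c : T → ℕ → Y) (idx : T → ℕ) (G : ℕ → Finset T)
    (Q : T → (Y → Bool) → Prop)
    (hc : ∀ t t' v v', v < 2 ^ mlen (idx t) → v' < 2 ^ mlen (idx t') → c t v = c t' v' →
      t = t' ∧ v = v') (B : Y → Bool) (k : ℕ) :
    ∃ A, Cfg c idx G Q B k A ∅ := by
  classical
  refine ⟨fun y => if ∃ t v, y = c t v then decide (∃ t, y = c t 0) else B y, ?_, ?_, ?_⟩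
  · intro y hy
    rw [if_neg]
    rintro ⟨t, v, h⟩
    exact hy t v h
  · intro t _
    refine ⟨0, by positivity, ?_, ?_, by simp⟩
    · rw [if_pos ⟨t, 0, rfl⟩]
      exact decide_eq_true ⟨t, rfl⟩
    · intro v' h1 h2
      rw [if_pos ⟨t, v', rfl⟩]
      apply decide_eq_false
      rintro ⟨t', ht'⟩
      have := (hc t t' v' 0 h2 (by positivity) ht').2
      omega
  · intro t ht
    simp at ht

theorem cfg_step {Y T : Type} [DecidableEq T] (c : T → ℕ → Y) (idx : T → ℕ) (G : ℕ → Finset T)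
    (Q : T → (Y → Bool) → Prop) (hG : ∀ i t, t ∈ G i ↔ idx t = i)
    (hcard : ∀ i, (G i).card < 4 ^ (i + 1))
    (hc : ∀ t t' v v', v < 2 ^ mlen (idx t) → v' < 2 ^ mlen (idx t') → c t v = c t' v' →
      t = t' ∧ v = v')
    (hQ : ∀ t A, Q t A → ∃ U : Finset Y, U.card ≤ 2 ^ idx t ∧
      ∀ A' : Y → Bool, (∀ u ∈ U, A' u = A u) → Q t A')
    (B : Y → Bool) (k : ℕ) {A : Y → Bool} {S : Finset T} (h : Cfg c idx G Q B k A S)
    {t : T} (htk : idx t ≤ k) (htS : t ∉ S) (hQt : Q t A) :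
    ∃ A' S', Cfg c idx G Q B k A' S' ∧ rk G S k < rk G S' k := by
  classical
  set j := idx t with hj
  set S' : Finset T := insert t (S.filter fun s => idx s ≤ j) with hS'
  have hmem : ∀ s, s ∈ S' ↔ s = t ∨ (s ∈ S ∧ idx s ≤ j) := by
    intro s
    rw [hS', mem_insert, mem_filter]
  have hlow : ∀ i < j, S ∩ G i = S' ∩ G i := by
    intro i hi
    ext s
    rw [mem_inter, mem_inter, hmem, hG]
    constructor
    · rintro ⟨h1, h2⟩
      exact ⟨Or.inr ⟨h1, by omega⟩, h2⟩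
    · rintro ⟨rfl | ⟨h1, _⟩, h2⟩
      · omega
      · exact ⟨h1, h2⟩
  have hjlt : (S ∩ G j).card < (S' ∩ G j).card := by
    apply card_lt_card
    rw [ssubset_iff_of_subset]
    · exact ⟨t, mem_inter.2 ⟨(hmem t).2 (Or.inl rfl), (hG j t).2 rfl⟩,
        fun h1 => htS (mem_inter.1 h1).1⟩
    · intro s hs
      rw [mem_inter, hG] at hs
      exact mem_inter.2 ⟨(hmem s).2 (Or.inr ⟨hs.1, hs.2.le⟩), (hG j s).2 hs.2⟩
  have hacc : ∀ s ∈ S', Q s A := by
    intro s hs
    rcases (hmem s).1 hs with rfl | ⟨h1, _⟩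
    · exact hQt
    · exact h.acc s h1
  have hidx : ∀ s ∈ S', idx s ≤ j := by
    intro s hs
    rcases (hmem s).1 hs with rfl | ⟨_, h2⟩
    · exact le_rfl
    · exact h2
  -- certificates
  have hU : ∀ s, ∃ U : Finset Y, s ∈ S' → U.card ≤ 2 ^ idx s ∧
      ∀ A' : Y → Bool, (∀ u ∈ U, A' u = A u) → Q s A' := by
    intro s
    by_cases hs : s ∈ S'
    · obtain ⟨U, h1⟩ := hQ s A (hacc s hs)
      exact ⟨U, fun _ => h1⟩
    · exact ⟨∅, fun h1 => absurd h1 hs⟩
  choose U hU using hU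
  set F : Finset Y := S'.biUnion U with hF
  have hFc : F.card < 8 ^ (j + 1) := by
    have h1 : F.card ≤ ∑ s ∈ S', 2 ^ idx s :=
      card_biUnion_le.trans (sum_le_sum fun s hs => (hU s hs).1)
    have h2 : S' ⊆ (range (j + 1)).biUnion G := by
      intro s hs
      exact mem_biUnion.2 ⟨idx s, mem_range.2 (Nat.lt_succ_of_le (hidx s hs)), (hG _ s).2 rfl⟩
    have h3 : ∑ s ∈ S', 2 ^ idx s ≤ ∑ i ∈ range (j + 1), (G i).card * 2 ^ i := by
      refine (sum_le_sum_of_subset h2).trans ?_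
      rw [sum_biUnion]
      · refine sum_le_sum fun i _ => ?_
        rw [sum_congr rfl fun s hs => by rw [(hG i s).1 hs], sum_const, smul_eq_mul]
      · intro i _ i' _ hne
        refine disjoint_left.2 fun s hs hs' => hne ?_
        rw [← (hG i s).1 hs, (hG i' s).1 hs']
    exact h1.trans_lt (h3.trans_lt (sum_groups_lt hcard _))
  -- new positions
  have hnew : ∀ s, ∃ v : ℕ, j ≤ idx s →
      2 ^ (3 * idx s + 4) * rk G S' (idx s) ≤ v ∧
      v < 2 ^ (3 * idx s + 4) * (rk G S' (idx s) + 1) ∧ c s v ∉ F ∧ (v % 2 = 1 ↔ s ∈ S') := by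
    intro s
    by_cases hs : j ≤ idx s
    swap
    · exact ⟨0, fun h1 => absurd h1 hs⟩
    set n := idx s with hn
    set b : ℕ := if s ∈ S' then 1 else 0 with hb
    have hb1 : b ≤ 1 := by
      rw [hb]
      split_ifs <;> omega
    have h8 : 2 ^ (3 * n + 4) = 2 * 8 ^ (n + 1) := by
      rw [show (8 : ℕ) = 2 ^ 3 by norm_num, ← pow_mul, ← pow_succ']
      congr 1
    have hlt : ∀ u < 8 ^ (n + 1), 2 ^ (3 * n + 4) * rk G S' n + 2 * u + b <
        2 ^ (3 * n + 4) * (rk G S' n + 1) := by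
      intro u hu
      rw [mul_add, mul_one, h8]
      omega
    obtain ⟨u, hu, hu2⟩ := exists_cand (c s) (8 ^ (n + 1)) (2 ^ (3 * n + 4) * rk G S' n) b F
      (by
        intro u u' hu hu' he
        have h1 := (hc s s _ _ ((hlt u hu).trans_le (gap_le hcard S' n))
          ((hlt u' hu').trans_le (gap_le hcard S' n)) he).2
        omega)
      (hFc.trans_le (Nat.pow_le_pow_right (by norm_num) (by omega)))
    refine ⟨_, fun _ => ⟨?_, hlt u hu, hu2, ?_⟩⟩
    · omega
    · have h9 : (2 ^ (3 * n + 4) * rk G S' n + 2 * u + b) % 2 = b % 2 := by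
        rw [h8, show 2 * 8 ^ (n + 1) * rk G S' n + 2 * u + b =
          b + 2 * (8 ^ (n + 1) * rk G S' n + u) by ring, Nat.add_mul_mod_self_left]
      rw [h9, hb]
      split_ifs with h10
      · simp [h10]
      · simp [h10]
  choose vs hvs using hnew
  have hvlt : ∀ s, j ≤ idx s → vs s < 2 ^ mlen (idx s) := fun s hs =>
    (hvs s hs).2.1.trans_le (gap_le hcard S' _)
  refine ⟨fun y => if ∃ s, j ≤ idx s ∧ y = c s (vs s) then true else A y, S',
    ⟨?_, ?_, ?_⟩, Nat.lt_of_succ_le (rk_step hcard hlow hjlt htk)⟩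
  · intro y hy
    rw [if_neg]
    · exact h.off y hy
    · rintro ⟨s, _, h2⟩
      exact hy _ _ h2
  · intro s hsk
    obtain ⟨v, hv1, hv2, hv3, hv4⟩ := h.pos s hsk
    by_cases hs : j ≤ idx s
    · obtain ⟨h1, h2, h3, h4⟩ := hvs s hs
      refine ⟨vs s, h2, ?_, ?_, h4⟩
      · rw [if_pos ⟨s, hs, rfl⟩]
      · intro v' h5 h6
        rw [if_neg]
        · apply hv3 v' _ h6
          have h7 : rk G S (idx s) + 1 ≤ rk G S' (idx s) := rk_step hcard hlow hjlt hs
          have h8 : 2 ^ (3 * idx s + 4) * (rk G S (idx s) + 1) ≤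
              2 ^ (3 * idx s + 4) * rk G S' (idx s) := Nat.mul_le_mul_left _ h7
          omega
        · rintro ⟨s', h7, h8⟩
          obtain ⟨rfl, h9⟩ := hc s s' v' (vs s') h6 (hvlt s' h7) h8
          omega
    · have hs' : idx s < j := by omega
      have hrk : rk G S (idx s) = rk G S' (idx s) := rk_congr fun i hi => hlow i (by omega)
      have hv5 : v < 2 ^ mlen (idx s) := hv1.trans_le (gap_le hcard S _)
      have hno : ∀ v' < 2 ^ mlen (idx s), ¬ ∃ s', j ≤ idx s' ∧ c s v' = c s' (vs s') := by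
        rintro v' h1 ⟨s', h2, h3⟩
        obtain ⟨rfl, _⟩ := hc s s' v' (vs s') h1 (hvlt s' h2) h3
        omega
      refine ⟨v, by rwa [← hrk], ?_, ?_, ?_⟩
      · rw [if_neg (hno v hv5)]
        exact hv2
      · intro v' h1 h2
        rw [if_neg (hno v' h2)]
        exact hv3 v' h1 h2
      · rw [hv4, hmem]
        constructor
        · exact fun h1 => Or.inr ⟨h1, hs'.le⟩
        · rintro (rfl | ⟨h1, _⟩)
          · omega
          · exact h1
  · intro s hs
    apply (hU s hs).2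
    intro u hu
    rw [if_neg]
    rintro ⟨s', h1, h2⟩
    apply (hvs s' h1).2.2.1
    rw [← h2]
    exact mem_biUnion.2 ⟨s, hs, hu⟩

/-- the finite stages -/
theorem core : S_CORE := by
  intro Y T c idx G Q hG hcard hc hQ B k
  classical
  set s : Set ℕ := {n | ∃ A S, Cfg c idx G Q B k A S ∧ rk G S k = n} with hs
  have hne : s.Nonempty := by
    obtain ⟨A, hA⟩ := cfg_zero c idx G Q hc B k
    exact ⟨_, A, ∅, hA, rfl⟩
  have hbd : BddAbove s := by
    refine ⟨2 ^ ((k + 1) * (k + 2)), ?_⟩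
    rintro n ⟨A, S, _, rfl⟩
    exact (rk_lt hcard S k).le
  obtain ⟨A, S, hA, hrk⟩ := Nat.sSup_mem hne hbd
  refine ⟨A, hA.off, fun t ht => ?_⟩
  obtain ⟨v, hv1, hv2, hv3, hv4⟩ := hA.pos t ht
  refine ⟨v, hv1.trans_le (gap_le hcard S _), hv2, hv3, hv4.trans ⟨hA.acc t, fun hq => ?_⟩⟩
  by_contra htS
  obtain ⟨A', S', hA', hlt⟩ := cfg_step c idx G Q hG hcard hc hQ B k hA ht htS hq
  have h1 : rk G S' k ≤ sSup s := le_csSup hbd ⟨A', S', hA', rfl⟩
  omega

end Pool.Agent.W886.CS.Core
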