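import Pool.Agent.W886.CS.Stm1
import Pool.Agent.W886.CS.Core
import Pool.Agent.W753.CS.Bit
import Pool.Agent.W381.CSCPT
import Pool.Agent.W900.CH.NELev

/-!
# Changing few strings to get `P^NP = NEXP`
-/

set_option autoImplicit false

namespace Pool.Agent.W886.CS

open Filter Pool.Agent.NPC Pool.Agent.H620R2.Gauge Pool.Agent.W900.CH

theorem alg_fin : S_FIN := by
  classical
  intro M n x
  induction n with
  | zero => exact fun a => ⟨∅, fun A A' _ => rfl⟩
  | succ n ih =>
    intro a
    rcases hq : M.D (pairBits x a) with _ | ⟨c, q⟩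
    · exact ⟨∅, fun A A' _ => by simp only [Alg.run, hq]⟩
    · cases c with
      | true => exact ⟨∅, fun A A' _ => by simp only [Alg.run, hq]⟩
      | false =>
        obtain ⟨U, hU⟩ := ih (a ++ [true])
        obtain ⟨U', hU'⟩ := ih (a ++ [false])
        refine ⟨insert q (U ∪ U'), fun A A' h => ?_⟩
        have h1 : A q = A' q := h q (Finset.mem_insert_self _ _)
        simp only [Alg.run, hq, h1]
        have h2 : ∀ u ∈ U, A u = A' u := fun u hu =>
          h u (Finset.mem_insert_of_mem (Finset.mem_union_left _ hu))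
        have h3 : ∀ u ∈ U', A u = A' u := fun u hu =>
          h u (Finset.mem_insert_of_mem (Finset.mem_union_right _ hu))
        cases A' q with
        | true => exact hU A A' h2
        | false => exact hU' A A' h3

theorem nexp_fin (M : Alg) (q : ℕ) (x : List Bool) : ∃ U : Finset (List Bool),
    ∀ A A' : Oracle, (∀ u ∈ U, A u = A' u) →
      ((∃ w : List Bool, w.length = q ∧ M.out A (pairBits w x) = some [true]) ↔
        ∃ w : List Bool, w.length = q ∧ M.out A' (pairBits w x) = some [true]) := by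
  classical
  have h := fun w : List Bool =>
    alg_fin M (M.p.eval (pairBits w x).length) (pairBits w x) []
  choose U hU using h
  have hf : {l : List Bool | l.length = q}.Finite := List.finite_length_eq Bool q
  refine ⟨hf.toFinset.biUnion U, fun A A' hA => ?_⟩
  have key : ∀ w : List Bool, w.length = q → M.out A (pairBits w x) = M.out A' (pairBits w x) := by
    intro w hw
    exact hU w A A' fun u hu => hA u (Finset.mem_biUnion.2 ⟨w, hf.mem_toFinset.2 hw, hu⟩)
  constructor
  · rintro ⟨w, hw, h⟩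
    exact ⟨w, hw, by rwa [← key w hw]⟩
  · rintro ⟨w, hw, h⟩
    exact ⟨w, hw, by rwa [key w hw]⟩

theorem bw_inj {m v v' : ℕ} (hv : v < 2 ^ m) (hv' : v' < 2 ^ m) (h : bw m v = bw m v') :
    v = v' := by
  apply Nat.eq_of_testBit_eq
  intro i
  by_cases hi : i < m
  · have h1 := List.ofFn_injective h
    have h2 := congrFun h1 ⟨m - 1 - i, by omega⟩
    simp only at h2
    rwa [show m - 1 - (m - 1 - i) = i by omega] at h2
  · have h3 : 2 ^ m ≤ 2 ^ i := Nat.pow_le_pow_right (by norm_num) (by omega)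
    rw [Nat.testBit_eq_false_of_lt (by omega), Nat.testBit_eq_false_of_lt (by omega)]

/-- From the coding in the last accepted number to an algorithm. -/
theorem isPNP_of_last (hNPX : S_NPX) (hSEA : S_SEA) (R : ℕ → Polynomial ℕ) (e : ℕ)
    (P : Polynomial ℕ) (A : Oracle) (L : Set (List Bool))
    (h : ∀ x : List Bool, LastOdd A (fun v => X4.cd R (e, x) (bw (P.eval x.length + 1) v))
      (2 ^ (P.eval x.length + 1)) (x ∈ L)) : IsPNP A L := by
  classical
  set X : Oracle := fun y => decide (∃ w : List Bool,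
    w.length = P.eval (unpair y).1.length + 1 ∧
      (unpair y).2 <+: w ∧ A (X4.cd R (e, (unpair y).1) w) = true) with hX
  refine ⟨X, ?_, hSEA X P L fun x => ?_⟩
  · have h1 := hNPX R e P A
    have h2 : {y | X y = true} = {y | ∃ w : List Bool,
        w.length = P.eval (unpair y).1.length + 1 ∧
        (unpair y).2 <+: w ∧ A (X4.cd R (e, (unpair y).1) w) = true} := by
      ext y
      simp only [hX, Set.mem_ofPred_eq, decide_eq_true_eq]
    rw [h2]
    exact h1
  · obtain ⟨s, hs1, hs2, hs3⟩ := Pool.Agent.W753.CS.task (fun w => A (X4.cd R (e, x) w))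
      (P.eval x.length) (x ∈ L) (h x)
    refine ⟨s, hs1, fun j hj => ?_, hs3⟩
    rw [← hs2 j hj]
    simp only [hX, decide_eq_true_eq, unpair_pairBits]

/-- the number of the group of a task -/
noncomputable def grp (r : ℕ → Polynomial ℕ) (t : ℕ × List Bool) : ℕ :=
  (r t.1).eval t.2.length + t.1 + t.2.length

/-- the tasks in the group `i` -/
noncomputable def G (r : ℕ → Polynomial ℕ) (i : ℕ) : Finset (ℕ × List Bool) :=
  (Finset.range (i + 1) ×ˢ (Finset.range (2 ^ (i + 1))).image str).filter fun t => grp r t = i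

theorem mem_G (r : ℕ → Polynomial ℕ) (i : ℕ) (t : ℕ × List Bool) : t ∈ G r i ↔ grp r t = i := by
  unfold G
  rw [Finset.mem_filter, Finset.mem_product, Finset.mem_range, Finset.mem_image]
  constructor
  · exact fun h => h.2
  · intro h
    have h0 : (r t.1).eval t.2.length + t.1 + t.2.length = i := h
    refine ⟨⟨by omega, idx t.2, ?_, str_idx t.2⟩, h⟩
    rw [Finset.mem_range]
    have h1 := idx_lt t.2
    have h2 : 2 ^ (t.2.length + 1) ≤ 2 ^ (i + 1) := Nat.pow_le_pow_right (by norm_num) (by omega)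
    omega

theorem card_G (r : ℕ → Polynomial ℕ) (i : ℕ) : (G r i).card < 4 ^ (i + 1) := by
  have h1 : (G r i).card ≤ (i + 1) * 2 ^ (i + 1) := by
    refine (Finset.card_filter_le _ _).trans ?_
    rw [Finset.card_product, Finset.card_range]
    exact Nat.mul_le_mul_left _ (Finset.card_image_le.trans (Finset.card_range _).le)
  have h2 : i + 1 < 2 ^ (i + 1) := Nat.lt_two_pow_self
  have h3 : (4 : ℕ) ^ (i + 1) = 2 ^ (i + 1) * 2 ^ (i + 1) := by
    rw [← mul_pow]
    norm_num
  have h4 : 0 < 2 ^ (i + 1) := by positivity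
  nlinarith

/-- Every oracle can be changed at few strings such that nondeterministic exponential time has
polynomial-time algorithms with an `NP` oracle. -/
theorem exists_close_PNP (hNPX : S_NPX) (hSEA : S_SEA) {g : ℕ → ℝ} {ε : ℝ} (hε : 0 < ε)
    (hg : ∀ᶠ n : ℕ in atTop, 2 ^ (n : ℝ) ^ ε < g n) (O : Oracle) :
    ∃ A, Close g O A ∧ ∀ L, IsNEXP A L → IsPNP A L := by
  have h1 := CC.poly_countable
  obtain ⟨al, hal⟩ := exists_alg
  have h2 : Countable Alg := inferInstance
  have h3 : Nonempty (Alg × Polynomial ℕ) := ⟨(al 0, 0)⟩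
  obtain ⟨u, hu⟩ := exists_surjective_nat (Alg × Polynomial ℕ)
  choose rd hrd using nexp_local
  obtain ⟨K, hK'⟩ := exists_K hε
  set R : ℕ → Polynomial ℕ := fun e => (Polynomial.X + Polynomial.C (e + 1)) ^ K with hR
  have hRe : ∀ e n, (n + e + 1) ^ K ≤ (R e).eval n := by
    intro e n
    rw [hR]
    simp only [Polynomial.eval_pow, Polynomial.eval_add, Polynomial.eval_X, Polynomial.eval_C]
    rw [add_assoc]
  set r : ℕ → Polynomial ℕ := fun e => rd (u e).1 (u e).2 with hr
  set Q : ℕ × List Bool → Oracle → Prop := fun t A =>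
    ∃ w : List Bool, w.length = 2 ^ (u t.1).2.eval t.2.length ∧
      (u t.1).1.out A (pairBits w t.2) = some [true] with hQ
  set c : ℕ × List Bool → ℕ → List Bool := fun t v => X4.cd R t (bw (mlen (grp r t)) v) with hc
  have hinj : ∀ t t' v v', v < 2 ^ mlen (grp r t) → v' < 2 ^ mlen (grp r t') →
      c t v = c t' v' → t = t' ∧ v = v' := by
    intro t t' v v' h4 h5 h6
    obtain ⟨rfl, h7⟩ := X4.cd_inj R h6
    exact ⟨rfl, bw_inj h4 h5 h7⟩
  have hloc : ∀ t A, Q t A → ∃ U : Finset (List Bool), U.card ≤ 2 ^ grp r t ∧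
      ∀ A' : Oracle, (∀ u ∈ U, A' u = A u) → Q t A' := by
    intro t A h
    obtain ⟨U, h4, h5⟩ := hrd (u t.1).1 (u t.1).2 t.2 A h
    refine ⟨U, h4.trans (Nat.pow_le_pow_right (by norm_num) ?_), h5⟩
    unfold grp
    rw [add_assoc]
    exact Nat.le_add_right _ _
  have hcore := Core.core (List Bool) (ℕ × List Bool) c (grp r) (G r) Q (mem_G r) (card_G r)
    hinj hloc O
  obtain ⟨A, hA1, hA2⟩ := Pool.Agent.W381.CSCPT.task (List Bool) (ℕ × List Bool) c (grp r)
    (fun t => 2 ^ mlen (grp r t)) Q (fun t => nexp_fin (u t.1).1 _ t.2) O hcore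
  have hoff : ∀ y, (∀ e x, y ≠ code R e x) → A y = O y :=
    fun y hy => hA1 y fun t v => hy _ _
  refine ⟨A, close_of_code hε hg hK' hRe hoff, ?_⟩
  rintro L ⟨V, q, ⟨M, hM⟩, hV⟩
  obtain ⟨e, he⟩ := hu (M, q)
  have hLx : ∀ x, x ∈ L ↔ Q (e, x) A := by
    intro x
    rw [hV x, hQ]
    simp only [he, hM, Option.some.injEq]
  set P : Polynomial ℕ := (r e + Polynomial.C e + Polynomial.X + 1) *
    (r e + Polynomial.C e + Polynomial.X + 2) +
    3 * (r e + Polynomial.C e + Polynomial.X) + 3 with hP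
  have hPe : ∀ x : List Bool, P.eval x.length + 1 = mlen (grp r (e, x)) := by
    intro x
    rw [hP]
    simp only [mlen, grp, Polynomial.eval_add, Polynomial.eval_mul, Polynomial.eval_C,
      Polynomial.eval_X, Polynomial.eval_one, Polynomial.eval_ofNat]
  refine isPNP_of_last hNPX hSEA R e P A L fun x => ?_
  have h4 := hA2 (e, x)
  rw [hPe x]
  obtain ⟨v, h5, h6, h7, h8⟩ := h4
  exact ⟨v, h5, h6, h7, h8.trans (hLx x).symm⟩

end Pool.Agent.W886.CS
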