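import Mathlib

/-!
# `P^NP` and `NEXP` after changes of the oracle: statements over Mathlib only
-/

set_option autoImplicit false

namespace Pool.Agent.W886.CS

/-- Some number `v < m` has `A (c v) = true`, and the last such number is odd if and only if `P`. -/
def LastOdd {Y : Type} (A : Y → Bool) (c : ℕ → Y) (m : ℕ) (P : Prop) : Prop :=
  ∃ v < m, A (c v) = true ∧ (∀ v', v < v' → v' < m → A (c v') = false) ∧ (v % 2 = 1 ↔ P)

/-- the length of the code strings of the tasks in group `i` -/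
def mlen (i : ℕ) : ℕ := ((i + 1) * (i + 2) + 3 * i + 3) + 1

/-- the `m` binary digits of `v`, the most significant digit first -/
def bw (m v : ℕ) : List Bool := List.ofFn (fun i : Fin m => v.testBit (m - 1 - i))

/-- the finite stages -/
def S_CORE : Prop :=
  ∀ (Y T : Type) (c : T → ℕ → Y) (idx : T → ℕ) (G : ℕ → Finset T)
    (Q : T → (Y → Bool) → Prop),
    (∀ i t, t ∈ G i ↔ idx t = i) → (∀ i, (G i).card < 4 ^ (i + 1)) →
    (∀ t t' v v', v < 2 ^ mlen (idx t) → v' < 2 ^ mlen (idx t') → c t v = c t' v' →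
      t = t' ∧ v = v') →
    (∀ t A, Q t A → ∃ U : Finset Y, U.card ≤ 2 ^ idx t ∧
      ∀ A' : Y → Bool, (∀ u ∈ U, A' u = A u) → Q t A') →
    ∀ (B : Y → Bool) (k : ℕ), ∃ A : Y → Bool, (∀ y, (∀ t v, y ≠ c t v) → A y = B y) ∧
      ∀ t, idx t ≤ k → LastOdd A (c t) (2 ^ mlen (idx t)) (Q t A)

/-- compactness -/
def S_CPT : Prop :=
  ∀ (Y T : Type) (c : T → ℕ → Y) (idx m : T → ℕ) (Q : T → (Y → Bool) → Prop),
    (∀ t, ∃ U : Finset Y, ∀ A A' : Y → Bool, (∀ u ∈ U, A u = A' u) → (Q t A ↔ Q t A')) →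
    ∀ B : Y → Bool,
    (∀ k : ℕ, ∃ A : Y → Bool, (∀ y, (∀ t v, y ≠ c t v) → A y = B y) ∧
      ∀ t, idx t ≤ k → LastOdd A (c t) (m t) (Q t A)) →
    ∃ A : Y → Bool, (∀ y, (∀ t v, y ≠ c t v) → A y = B y) ∧
      ∀ t, LastOdd A (c t) (m t) (Q t A)

/-- the digits of the last number can be found from the first to the last one -/
def S_BIT : Prop :=
  ∀ (A : List Bool → Bool) (m : ℕ) (P : Prop), LastOdd A (bw (m + 1)) (2 ^ (m + 1)) P →
    ∃ s : List Bool, s.length = m + 1 ∧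
      (∀ j < m + 1, (∃ w : List Bool, w.length = m + 1 ∧ (s.take j ++ [true]) <+: w ∧
        A w = true) ↔ s[j]? = some true) ∧
      (s.getLast? = some true ↔ P)

end Pool.Agent.W886.CS
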