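import Pool.Agent.W886.CS.Stm0
import Pool.Agent.H620R2.GaugeX.X4
import Pool.Agent.H620R2.GaugeX.Defs

/-!
# `P^NP` relative to an oracle, and statements on algorithms
-/

set_option autoImplicit false

namespace Pool.Agent.W886.CS

open Pool.Agent.NPC Pool.Agent.H620R2.Gauge

/-- The language `L` is in `P^NP` relative to `A`: it is decided by a polynomial-time algorithm
with an oracle `X` that is a language in `NP` relative to `A`. -/
def IsPNP (A : Oracle) (L : Set (List Bool)) : Prop :=
  ∃ X : Oracle, IsNP A {y | X y = true} ∧ IsP X L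

/-- the prefix questions are in `NP` -/
def S_NPX : Prop :=
  ∀ (R : ℕ → Polynomial ℕ) (e : ℕ) (P : Polynomial ℕ) (A : Oracle),
    IsNP A {y | ∃ w : List Bool, w.length = P.eval (unpair y).1.length + 1 ∧
      (unpair y).2 <+: w ∧ A (X4.cd R (e, (unpair y).1) w) = true}

/-- the search algorithm -/
def S_SEA : Prop :=
  ∀ (X : Oracle) (P : Polynomial ℕ) (L : Set (List Bool)),
    (∀ x, ∃ s : List Bool, s.length = P.eval x.length + 1 ∧
      (∀ j < P.eval x.length + 1, X (pairBits x (s.take j ++ [true])) = true ↔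
        s[j]? = some true) ∧
      (s.getLast? = some true ↔ x ∈ L)) →
    IsP X L

/-- `P^NP ⊆ PSPACE` -/
def S_NPS : Prop := ∀ (A : Oracle) (L : Set (List Bool)), IsPNP A L → IsPSPACE A L

/-- `EXP ⊆ NEXP` -/
def S_EXN : Prop := ∀ (A : Oracle) (L : Set (List Bool)), IsEXP A L → IsNEXP A L

/-- `PSPACE ⊆ EXP` -/
def S_PSE : Prop := ∀ (A : Oracle) (L : Set (List Bool)), IsPSPACE A L → IsEXP A L

/-- the answer depends on finitely many strings -/
def S_FIN : Prop :=
  ∀ (M : Alg) (n : ℕ) (x a : List Bool), ∃ U : Finset (List Bool), ∀ A A' : Oracle,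
    (∀ u ∈ U, A u = A' u) → M.run A x n a = M.run A' x n a

end Pool.Agent.W886.CS
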